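import Pool.Agent.Helper75.AL.Sts
import Pool.Agent.Helper59.LQ.L3

/-! Package W6: the rescaled sequences of the abstract local law. -/

set_option autoImplicit false
set_option maxHeartbeats 1000000

open Complex MeasureTheory Filter Topology

namespace Pool.Agent.Helper59.AL

open Pool.Agent.Helper75.LQ Pool.Agent.Helper75.AL Pool.Agent.Helper59.LQ

theorem w6 (hW1 : St_W1) (hW2 : St_W2) (hW3 : St_W3) : St_W6 := by
  refine ⟨fun δ => 2 + 1 / δ, fun ε hε => ?_⟩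
  set ρ : ℝ := min ε 1 / 8 with hρ
  have hm0 : 0 < min ε 1 := lt_min hε one_pos
  have hρ0 : 0 < ρ := by rw [hρ]; linarith
  have hρ1 : ρ ≤ 1 / 8 := by have := min_le_right ε 1; rw [hρ]; linarith
  have hρε : ρ ≤ ε / 8 := by have := min_le_left ε 1; rw [hρ]; linarith
  refine ⟨ρ, hρ0, fun A κ G L hA0 hA12 hκ0 hκ hAG hLine hNoZ hLag hbig => ?_⟩
  have hllim : Tendsto L atTop atTop := hAG.lim
  have hLlim : Tendsto (fun j => 2 * A * L j) atTop atTop := hllim.const_mul_atTop (by linarith)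
  have hAε : 0 < A * ε := by positivity
  set η : ℝ := A * ρ / 2 with hη
  have hη0 : 0 < η := by positivity
  have hηε : η ≤ A * ε / 16 := by rw [hη]; nlinarith
  have hηA : η ≤ A / 16 := by rw [hη]; nlinarith
  have hρA : A * ρ ≤ A * ε / 8 := by nlinarith
  set B1 : ℝ := 2 * A * (1 + ρ) + η with hB1
  have hB1pos : 0 < B1 := by positivity
  have hB1A : 2 * A ≤ B1 := by rw [hB1]; nlinarith
  have hB12 : B1 ≤ 2 := by rw [hB1]; nlinarith
  have hNoZ' : ANoZ B1 G := by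
    intro e he R
    filter_upwards [hNoZ e he R] with j hj w h1 h2 h3
    exact hj w h1 (by rw [hB1] at h2; linarith) h3
  -- symmetry
  have hsym : ∀ (j : ℕ) (w : ℂ), ∃ w' : ℂ, w'.re = w.re ∧ w'.im = |w.im| ∧ ‖G j w‖ = ‖G j w'‖ := by
    intro j w
    rcases le_total 0 w.im with h | h
    · exact ⟨w, rfl, (abs_of_nonneg h).symm, rfl⟩
    · refine ⟨(starRingEnd ℂ) w, by simp, by simp [abs_of_nonpos h], ?_⟩
      rw [hAG.re, RCLike.norm_conj]
  -- scaling
  have sre : ∀ z : ℂ, (((2 * A : ℝ) : ℂ) * z).re = 2 * A * z.re := fun z => by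
    rw [Complex.re_ofReal_mul]
  have sim : ∀ z : ℂ, (((2 * A : ℝ) : ℂ) * z).im = 2 * A * z.im := fun z => by
    rw [Complex.im_ofReal_mul]
  have sabs : ∀ r : ℝ, |2 * A * r| = 2 * A * |r| := fun r => by
    rw [abs_mul, abs_of_pos (by linarith : 0 < 2 * A)]
  have hre : ∀ (R : ℝ) (z : ℂ), |z.re| ≤ R → |(((2 * A : ℝ) : ℂ) * z).re| ≤ R := by
    intro R z hz
    rw [sre, sabs]
    have := abs_nonneg z.re
    nlinarith
  have him : ∀ z : ℂ, |z.im| ≤ 8 → |(((2 * A : ℝ) : ℂ) * z).im| ≤ 8 := by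
    intro z hz
    rw [sim, sabs]
    have := abs_nonneg z.im
    nlinarith
  -- convexity
  have hconv : ∀ R : ℝ, ∀ᶠ j in atTop, ∀ w : ℂ, |w.re| ≤ R → |w.im| ≤ B1 →
      ‖G j w‖ ≤ Real.exp (L j * (|w.im| / 2 + A * (1 - |w.im| / B1) + η)) := by
    intro R
    filter_upwards [hW3 G L A B1 hAG hA0.le hA12 hB1pos hB12 hLine hNoZ' η hη0 R] with j hj w h1 h2
    obtain ⟨w', e1, e2, e3⟩ := hsym j w
    have := hj w' (by rw [e1]; exact h1) (by rw [e2]; exact abs_nonneg _) (by rw [e2]; exact h2)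
    rwa [e2, ← e3] at this
  -- above the zeros
  have hright : ∀ R : ℝ, ∀ᶠ j in atTop, ∀ w : ℂ, |w.re| ≤ R → B1 ≤ |w.im| → |w.im| ≤ 8 →
      Real.exp (L j * (|w.im| / 2 - η)) ≤ ‖G j w‖ ∧ ‖G j w‖ ≤ Real.exp (L j * (|w.im| / 2 + η)) := by
    intro R
    filter_upwards [hW2 G L (2 * A * (1 + ρ)) hAG (by positivity) hNoZ η hη0 R] with j hj w h1 h2 h3
    obtain ⟨w', e1, e2, e3⟩ := hsym j w
    have := hj w' (by rw [e1]; exact h1) (by rw [e2]; exact h2) (by rw [e2]; linarith)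
    rwa [e2, ← e3] at this
  refine ⟨fun j z => G j (((2 * A : ℝ) : ℂ) * z), fun j => 2 * A * L j, ?_⟩
  refine { lim := hLlim, ent := fun j => (hAG.ent j).comp (by fun_prop),
           re := fun j z => ?_, up0 := ?_, up1 := ?_, lo1 := ?_, big := ?_, glob := ?_, pos := ?_ }
  · show G j (((2 * A : ℝ) : ℂ) * (starRingEnd ℂ) z) = (starRingEnd ℂ) (G j (((2 * A : ℝ) : ℂ) * z))
    rw [← hAG.re, map_mul, Complex.conj_ofReal]
  · -- up0
    intro R
    filter_upwards [hconv R, hllim.eventually_ge_atTop 0] with j a2 hl z hz hz'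
    set u : ℂ := ((2 * A : ℝ) : ℂ) * z with hu
    have hyu : |u.im| = 2 * A * |z.im| := by rw [hu, sim, sabs]
    have hy0 : 0 ≤ |u.im| := abs_nonneg _
    have hy2 : |u.im| ≤ 2 * A := by rw [hyu]; nlinarith [abs_nonneg z.im]
    refine (a2 u (hre R z hz) (by linarith)).trans (Real.exp_le_exp.2 ?_)
    have f1 : |u.im| / 2 + A * (1 - |u.im| / B1) + η ≤ A + 2 * (A * ε) := by
      have g1 : |u.im| / 2 - A * (|u.im| / B1) ≤ A * ρ + η / 2 := by
        have g2 : |u.im| / 2 - A * (|u.im| / B1) = (|u.im| / B1) * (A * ρ + η / 2) := by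
          rw [hB1]
          have : (2 * A * (1 + ρ) + η) ≠ 0 := by positivity
          field_simp
          ring
        rw [g2]
        have g3 : |u.im| / B1 ≤ 1 := by rw [div_le_one hB1pos]; linarith
        have g4 : 0 ≤ A * ρ + η / 2 := by positivity
        nlinarith
      linarith
    have f2 := mul_le_mul_of_nonneg_left f1 hl
    have e : 2 * A * L j * (1 / 2 + ε) = L j * (A + 2 * (A * ε)) := by ring
    rw [e]
    exact f2
  · -- up1
    intro R
    filter_upwards [hconv R, hright R, hllim.eventually_ge_atTop 0] with j a2 a3 hl z hz hz' hz8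
    set u : ℂ := ((2 * A : ℝ) : ℂ) * z with hu
    have hyu : |u.im| = 2 * A * |z.im| := by rw [hu, sim, sabs]
    have hyA : 2 * A ≤ |u.im| := by rw [hyu]; nlinarith
    have hy8 : |u.im| ≤ 8 := him z hz8
    have hgoal : 2 * A * L j * (|z.im| / 2 + ε) = L j * (|u.im| / 2 + 2 * (A * ε)) := by
      rw [hyu]; ring
    show ‖G j u‖ ≤ _
    rw [hgoal]
    rcases le_total |u.im| B1 with hc | hc
    · refine (a2 u (hre R z hz) hc).trans (Real.exp_le_exp.2 (mul_le_mul_of_nonneg_left ?_ hl))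
      have g1 : 1 - |u.im| / B1 ≤ 5 / 4 * ρ := by
        have g2 : 1 - |u.im| / B1 = (B1 - |u.im|) / B1 := by field_simp
        rw [g2, div_le_iff₀ hB1pos]
        have g3 : B1 - |u.im| ≤ 5 / 2 * (A * ρ) := by rw [hB1, hη] at *; linarith
        have g4 : 5 / 4 * ρ * (2 * A) ≤ 5 / 4 * ρ * B1 := mul_le_mul_of_nonneg_left hB1A (by positivity)
        linarith
      have g5 : A * (1 - |u.im| / B1) ≤ A * (5 / 4 * ρ) := mul_le_mul_of_nonneg_left g1 hA0.le
      nlinarith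
    · refine ((a3 u (hre R z hz) hc hy8).2).trans (Real.exp_le_exp.2 (mul_le_mul_of_nonneg_left ?_ hl))
      linarith
  · -- lo1
    intro R
    filter_upwards [hright R, hllim.eventually_ge_atTop 0] with j a3 hl z hz hz' hz8
    have hab : |z.im| = z.im := abs_of_nonneg (by linarith)
    set u : ℂ := ((2 * A : ℝ) : ℂ) * z with hu
    have hyu : |u.im| = 2 * A * z.im := by rw [hu, sim, sabs, hab]
    have hy8 : |u.im| ≤ 8 := him z (by rw [hab]; exact hz8)
    have hyA : B1 ≤ |u.im| := by rw [hyu, hB1]; nlinarith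
    refine le_trans (Real.exp_le_exp.2 ?_) (a3 u (hre R z hz) hyA hy8).1
    have hgoal : 2 * A * L j * (z.im / 2 - ε) = L j * (|u.im| / 2 - 2 * (A * ε)) := by
      rw [hyu]; ring
    rw [hgoal]
    exact mul_le_mul_of_nonneg_left (by linarith) hl
  · -- big
    filter_upwards [hbig (2 * (A * ε)) (by positivity)] with j a2
    show Real.exp (2 * A * L j * (1 / 2 - ε)) ≤ ‖G j (((2 * A : ℝ) : ℂ) * 0)‖
    rw [mul_zero]
    refine le_trans (le_of_eq ?_) a2
    congr 1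
    ring
  · -- glob
    intro δ hδ
    filter_upwards [hW1 G L A hAG hA0.le hA12 hLine η hη0 9, hAG.ok (min (δ / 2) 1) (lt_min (by linarith) one_pos) 0,
      hllim.eventually_ge_atTop 0] with j j1 j2 hl z
    set u : ℂ := ((2 * A : ℝ) : ℂ) * z with hu
    have hn : ‖u‖ = 2 * A * ‖z‖ := by
      rw [hu, norm_mul, Complex.norm_real, Real.norm_of_nonneg (by linarith)]
    have hz0 : 0 ≤ ‖z‖ := norm_nonneg z
    have hyu : |u.im| = 2 * A * |z.im| := by rw [hu, sim, sabs]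
    have him' : |z.im| ≤ ‖z‖ := Complex.abs_im_le_norm z
    show ‖G j u‖ ≤ _
    have hgoal : 2 * A * L j * (2 + 1 / δ + δ * ‖z‖ ^ 2) = L j * (2 * A * (2 + 1 / δ + δ * ‖z‖ ^ 2)) := by ring
    rw [hgoal]
    rcases le_or_gt ‖u‖ 9 with h9 | h9
    · obtain ⟨u', e1, e2, e3⟩ := hsym j u
      have h4 := j1 u' (by rw [e1]; exact (Complex.abs_re_le_norm u).trans h9) (by rw [e2]; exact abs_nonneg _)
        (by rw [e2]; exact (Complex.abs_im_le_norm u).trans (by linarith))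
      rw [e2, ← e3] at h4
      refine h4.trans (Real.exp_le_exp.2 (mul_le_mul_of_nonneg_left ?_ hl))
      have g3 : ‖z‖ / 2 ≤ 1 / δ + δ * ‖z‖ ^ 2 := by
        have : 1 / δ + δ * ‖z‖ ^ 2 - ‖z‖ / 2 = ((4 * δ * ‖z‖ - 1) ^ 2 + 15) / (16 * δ) := by
          field_simp
          ring
        have h0 : 0 ≤ ((4 * δ * ‖z‖ - 1) ^ 2 + 15) / (16 * δ) := by positivity
        linarith
      have g4 : |u.im| / 2 ≤ 2 * A * (‖z‖ / 2) := by rw [hyu]; nlinarith
      have g5 : 2 * A * (‖z‖ / 2) ≤ 2 * A * (1 / δ + δ * ‖z‖ ^ 2) :=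
        mul_le_mul_of_nonneg_left g3 (by linarith)
      nlinarith
    · have h4 := j2.grow u
      refine h4.trans (Real.exp_le_exp.2 (mul_le_mul_of_nonneg_left ?_ hl))
      have g0 : min (δ / 2) 1 ≤ δ / 2 := min_le_left _ _
      have g0' : min (δ / 2) 1 ≤ 1 := min_le_right _ _
      have g1 : 1 ≤ 2 * A * ‖z‖ / 9 := by rw [hn] at h9; linarith
      have g2 : min (δ / 2) 1 * (1 + ‖u‖ ^ 2) ≤ 2 * A * ‖z‖ / 9 + 2 * A * (δ / 2 * ‖z‖ ^ 2) := by
        have a1 : min (δ / 2) 1 * 1 ≤ 2 * A * ‖z‖ / 9 := by linarith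
        have a2 : min (δ / 2) 1 * ‖u‖ ^ 2 ≤ δ / 2 * ‖u‖ ^ 2 := mul_le_mul_of_nonneg_right g0 (sq_nonneg _)
        have a3 : ‖u‖ ^ 2 ≤ 2 * A * ‖z‖ ^ 2 := by
          rw [hn]
          have : (2 * A * ‖z‖) ^ 2 = (2 * A) * (2 * A * ‖z‖ ^ 2) := by ring
          rw [this]
          have h0 : 0 ≤ 2 * A * ‖z‖ ^ 2 := by positivity
          nlinarith
        have a4 : δ / 2 * ‖u‖ ^ 2 ≤ δ / 2 * (2 * A * ‖z‖ ^ 2) := mul_le_mul_of_nonneg_left a3 (by linarith)
        nlinarith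
      have g3 : ‖z‖ ≤ 1 / δ + δ / 2 * ‖z‖ ^ 2 := by
        have : 1 / δ + δ / 2 * ‖z‖ ^ 2 - ‖z‖ = ((δ * ‖z‖ - 1) ^ 2 + 1) / (2 * δ) := by
          field_simp
          ring
        have h0 : 0 ≤ ((δ * ‖z‖ - 1) ^ 2 + 1) / (2 * δ) := by positivity
        linarith
      have g5 : 2 * A * ‖z‖ ≤ 2 * A * (1 / δ + δ / 2 * ‖z‖ ^ 2) :=
        mul_le_mul_of_nonneg_left g3 (by linarith)
      have g6 : |u.im| / 2 ≤ 2 * A * ‖z‖ / 2 := by rw [hyu]; nlinarith
      nlinarith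
  · -- pos
    intro R
    filter_upwards [hLag (A * ε) hAε R, hllim.eventually_ge_atTop 0] with j a2 hl s hs m hm
    have hs' : |2 * A * s| ≤ R := by
      rw [sabs]
      have := abs_nonneg s
      nlinarith
    rw [Lag_scale (hAG.ent j)]
    apply mul_nonneg (by positivity)
    apply a2 (2 * A * s) hs' m
    refine le_trans ?_ hm
    have h1 : κ + A * ε ≤ 2 * A * ε := by nlinarith
    have := mul_le_mul_of_nonneg_right h1 hl
    linarith

end Pool.Agent.Helper59.AL
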